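import Pool.Agent.helper96.PP2.SpecC

/-!
# Row pg:AFI
-/

set_option autoImplicit false

namespace Pool.Agent.PP2

open Topology Matrix

theorem AFI_mem_CX {R : Type} [CommRing R] (C : Subring R) (X Y : M2 R) :
    Y ∈ CX C X ↔ ∃ c ∈ C, c • X = Y := by
  unfold CX
  rw [AddSubgroup.mem_map]
  constructor
  · rintro ⟨c, hc, h⟩
    exact ⟨c, hc, h⟩
  · rintro ⟨c, hc, h⟩
    exact ⟨c, hc, h⟩

theorem AFI_comm {R : Type} [CommRing R] [Invertible (2 : R)] (X : M2 R) (g h : GL (Fin 2) R)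
    (c d : R) (hg : c • X = TH g) (hh : d • X = TH h) : g * h = h * g := by
  apply Units.ext
  rw [Units.val_mul, Units.val_mul, Lib_decomp g, Lib_decomp h, ← hg, ← hh]
  simp only [add_mul, mul_add, Matrix.smul_mul, Matrix.mul_smul, one_mul, mul_one, smul_smul]
  rw [mul_comm (ht g) (ht h), mul_comm d c, mul_comm (ht g) d, mul_comm (ht h) c]
  abel

theorem AFI_row (hABI : ABI_stmt) (hHAV : HAV_stmt) (hSUB : SUB_stmt) (hIDX : IDX_stmt)
    (hMOX : MOX_stmt) (hPID : PID_stmt) (hPOW : POW_stmt) (hFIT : FIT_stmt) (hTDG : TDG_stmt) :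
    AFI_stmt := by
  intro p R _ _ _ _ _ _ J hp hp2 hS C X hC htr hent hbf hH3
  obtain ⟨hcomp, hT2, hTD⟩ := hTDG p R J hS
  set N := CX C X with hN
  have hAdm : Adm J N := hMOX p R J hp hp2 hS C X hC htr hent hbf
  obtain ⟨_, hES⟩ := hSUB p R J hp hp2 hS
  obtain ⟨hmem, hclosed⟩ := hES N hAdm
  obtain ⟨_, hP⟩ := hPID p R J hp hp2 hS C X hC htr hent hbf
  have hcompA : CompactSpace (ES J N) := isCompact_iff_compactSpace.1 hclosed.isCompact
  have hcommA : ∀ x y : ES J N, x * y = y * x := by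
    rintro ⟨g, hg⟩ ⟨h, hh⟩
    apply Subtype.ext
    change g * h = h * g
    obtain ⟨c, _, hc⟩ := (AFI_mem_CX C X (TH g)).1 ((hmem g).1 hg).2
    obtain ⟨d, _, hd⟩ := (AFI_mem_CX C X (TH h)).1 ((hmem h).1 hh).2
    exact AFI_comm X g h c d hc hd
  have hq : ⅟(2 : R) * Bf X X ∈ C :=
    (hHAV p R J hp hp2 hS).2 C.toAddSubgroup hC (Bf X X) hbf
  have hqJ : ⅟(2 : R) * Bf X X ∈ J := by
    apply J.mul_mem_left
    rw [Lib_Bf]
    refine J.add_mem (J.add_mem ?_ ?_) (J.add_mem ?_ ?_)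
    · exact J.mul_mem_right _ (hent 0 0)
    · exact J.mul_mem_right _ (hent 0 1)
    · exact J.mul_mem_right _ (hent 1 0)
    · exact J.mul_mem_right _ (hent 1 1)
  have hqN : ∀ Y ∈ N, (⅟(2 : R) * Bf X X) • Y ∈ N := by
    intro Y hY
    obtain ⟨c, hc, rfl⟩ := (AFI_mem_CX C X Y).1 hY
    rw [smul_smul]
    exact (AFI_mem_CX C X _).2 ⟨_, C.mul_mem hq hc, rfl⟩
  refine hFIT p R J hp hp2 hS N (⅟(2 : R) * Bf X X) hAdm.closed hqJ hqN ?_
  intro n
  have hI := hP ((p ^ n - 1) / 2)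
  obtain ⟨hmem', hclosed'⟩ := hES _ hI.adm'
  obtain ⟨_, hidx, _⟩ := hIDX p R J hp hp2 hS _ _ hI
  have hB := hABI p (ES J N) hp hcommA hH3 n
    ((ES J (sN (p : R) N ⊔ sN ((⅟(2 : R) * Bf X X) ^ ((p ^ n - 1) / 2)) N)).subgroupOf (ES J N))
    (hclosed'.preimage continuous_subtype_val) ?_
  · rw [← hidx]
    exact hB
  · rintro ⟨g, hg⟩
    rw [Subgroup.mem_subgroupOf]
    change g ^ p ^ n ∈ _
    rw [hmem']
    exact ⟨(Sg J).pow_mem ((hmem g).1 hg).1 _, hPOW p R J hp hp2 hS C X hC htr hent hbf g hg n⟩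

end Pool.Agent.PP2
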